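import Pool.Agent.H5.Dem.Stmts

/-!
# Project DEM, module COMM: commuting elements
-/

set_option autoImplicit false

namespace Pool.Agent.H5.Dem

namespace CommAux

variable {G : Type} [Group G] [TopologicalSpace G] [IsTopologicalGroup G]

omit [IsTopologicalGroup G] in
theorem h1_one {P : Subgroup G} (f : H1 2 P) : f.1 1 = 0 := by
  have := f.2.2 1 1
  simpa using this

omit [IsTopologicalGroup G] in
theorem h1_inv {P : Subgroup G} (f : H1 2 P) (g : P) : f.1 g⁻¹ = f.1 g := by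
  have h1 := f.2.2 g g⁻¹
  rw [mul_inv_cancel, h1_one] at h1
  have h2 : f.1 g + f.1 g = 0 := CharTwo.add_self_eq_zero _
  have h3 : f.1 g + f.1 g⁻¹ = f.1 g + f.1 g := by rw [← h1, h2]
  exact add_left_cancel h3

/-- A homomorphism on the closure of `⟨a, b⟩` is determined by its values at `a` and `b`. -/
theorem det (a b : G) (P : Subgroup G) (hP : P = (Subgroup.closure {a, b}).topologicalClosure)
    (ha' : a ∈ P) (hb' : b ∈ P) (f k : H1 2 P)
    (ha : f.1 ⟨a, ha'⟩ = k.1 ⟨a, ha'⟩) (hb : f.1 ⟨b, hb'⟩ = k.1 ⟨b, hb'⟩) : f = k := by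
  have hSP : Subgroup.closure {a, b} ≤ P := by
    rw [hP]
    exact Subgroup.le_topologicalClosure _
  have h1 : ∀ g (hg : g ∈ Subgroup.closure {a, b}), f.1 ⟨g, hSP hg⟩ = k.1 ⟨g, hSP hg⟩ := by
    intro g hg
    induction hg using Subgroup.closure_induction with
    | mem x hx =>
      rcases hx with rfl | hx
      · exact ha
      · rw [Set.mem_singleton_iff] at hx
        subst hx
        exact hb
    | one =>
      have h2 : (⟨1, hSP (one_mem _)⟩ : P) = 1 := rfl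
      rw [h2, h1_one, h1_one]
    | mul x y hx hy ihx ihy =>
      have h2 : (⟨x * y, hSP (mul_mem hx hy)⟩ : P) = ⟨x, hSP hx⟩ * ⟨y, hSP hy⟩ := rfl
      rw [h2, f.2.2, k.2.2, ihx, ihy]
    | inv x hx ih =>
      have h2 : (⟨x⁻¹, hSP (inv_mem hx)⟩ : P) = (⟨x, hSP hx⟩ : P)⁻¹ := rfl
      rw [h2, h1_inv, h1_inv, ih]
  have hcl : IsClosed {g : P | f.1 g = k.1 g} := by
    have h3 : IsLocallyConstant (fun g : P => f.1 g - k.1 g) := f.2.1.sub k.2.1
    have h4 := h3.isClosed_fiber 0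
    have h5 : {g : P | f.1 g = k.1 g} = {g : P | f.1 g - k.1 g = 0} := by
      ext g
      simp [sub_eq_zero]
    rw [h5]
    exact h4
  obtain ⟨C, hC, hCP⟩ := isClosed_induced_iff.1 hcl
  have h6 : (Subgroup.closure {a, b} : Set G) ⊆ C := by
    intro g hg
    have h7 : (⟨g, hSP hg⟩ : P) ∈ ((↑) : P → G) ⁻¹' C := by
      rw [hCP]
      exact h1 g hg
    exact h7
  have h8 : (P : Set G) ⊆ C := by
    rw [hP, Subgroup.topologicalClosure_coe]
    exact closure_minimal h6 hC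
  ext g
  have h9 : g ∈ ((↑) : P → G) ⁻¹' C := h8 g.2
  rw [hCP] at h9
  exact h9

end CommAux

open CommAux in
/-- Module COMM. -/
theorem comm (h0 : CUP0Stmt) (hM : MAXStmt) (hH : H1CStmt) : COMMStmt := by
  intro G _ _ x y z hG A B hA hB hAB a ha b hb hab
  have := hG.proP.topGroup
  have := hG.proP.compact
  have := hG.proP.hausdorff
  have := hG.proP.disconnected
  by_contra hne
  push Not at hne
  obtain ⟨ha1, hb1⟩ := hne
  have memA : a ∈ Subgroup.closure {a, b} := Subgroup.subset_closure (by simp)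
  have memB : b ∈ Subgroup.closure {a, b} := Subgroup.subset_closure (by simp)
  set S := Subgroup.closure {a, b} with hS
  set P := S.topologicalClosure with hP
  have hSP : S ≤ P := Subgroup.le_topologicalClosure _
  have hPc : IsClosed (P : Set G) := Subgroup.isClosed_topologicalClosure _
  have hdet : ∀ f k : H1 2 P, f.1 ⟨a, hSP memA⟩ = k.1 ⟨a, hSP memA⟩ →
      f.1 ⟨b, hSP memB⟩ = k.1 ⟨b, hSP memB⟩ → f = k := fun f k h1 h2 => det a b P hP (hSP memA) (hSP memB) f k h1 h2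
  have hno : ¬ IsOpen (P : Set G) := by
    intro ho
    have h1 := hH G x y z hG P ho
    have h2 : Function.Injective (fun f : H1 2 P =>
        ((f.1 ⟨a, hSP memA⟩, f.1 ⟨b, hSP memB⟩) : ZMod 2 × ZMod 2)) := by
      intro f k hfk
      simp only [Prod.mk.injEq] at hfk
      exact hdet f k hfk.1 hfk.2
    have h3 := Nat.card_le_card_of_injective _ h2
    rw [h1, Nat.card_prod, Nat.card_zmod] at h3
    have h4 : P.index ≠ 0 := by
      have hq : Finite (G ⧸ P) := Subgroup.quotient_finite_of_isOpen P ho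
      have hi : P.FiniteIndex := Subgroup.finiteIndex_of_finite_quotient
      exact hi.index_ne_zero
    have h5 : 2 ^ 3 ≤ 2 ^ (P.index + 2) := Nat.pow_le_pow_right (by norm_num) (by omega)
    omega
  -- a character of `P` killing `c` and not killing `d`
  have hch : ∀ (c : G) (hc : c ∈ P) (d : G) (hd : d ∈ P) (T : Subgroup G), IsClosed (T : Set G) →
      c ∈ T → d ∉ T → (∀ f : H1 2 P, f.1 ⟨c, hc⟩ = 0 → f.1 ⟨d, hd⟩ = 0 → f = 0) →
      ∃ f : H1 2 P, f.1 ⟨c, hc⟩ = 0 ∧ f.1 ⟨d, hd⟩ = 1 := by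
    intro c hc d hd T hT hcT hdT hz
    have h1 : IsClosed ((P ⊓ T : Subgroup G) : Set G) := by
      rw [Subgroup.coe_inf]
      exact hPc.inter hT
    have h2 : P ⊓ T ≠ P := by
      intro h
      have h3 : d ∈ P ⊓ T := by rw [h]; exact hd
      exact hdT h3.2
    obtain ⟨ω, hω, hωP⟩ := hM G hG.proP P (P ⊓ T) inf_le_left hPc h1 h2
    have h4 : ω.1 ⟨c, hc⟩ = 0 := hωP ⟨c, hc, hcT⟩
    refine ⟨ω, h4, ?_⟩
    by_contra h5
    apply hω
    apply hz ω h4
    have h6 : ∀ t : ZMod 2, t ≠ 1 → t = 0 := by decide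
    exact h6 _ h5
  have haB : a ∉ B := by
    intro h
    have h1 : a ∈ A ⊓ B := ⟨ha, h⟩
    rw [hAB, Subgroup.mem_bot] at h1
    exact ha1 h1
  have hbA : b ∉ A := by
    intro h
    have h1 : b ∈ A ⊓ B := ⟨h, hb⟩
    rw [hAB, Subgroup.mem_bot] at h1
    exact hb1 h1
  obtain ⟨f₁, hf₁b, hf₁a⟩ := hch b (hSP memB) a (hSP memA) B hB hb haB
    (fun f h1 h2 => hdet f 0 h2 h1)
  obtain ⟨f₂, hf₂a, hf₂b⟩ := hch a (hSP memA) b (hSP memB) A hA ha hbA
    (fun f h1 h2 => hdet f 0 h1 h2)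
  obtain ⟨e, -, he⟩ := h0 G x y z hG P hPc hno f₁ f₂
  have e1 := he ⟨a, hSP memA⟩ ⟨b, hSP memB⟩
  have e2 := he ⟨b, hSP memB⟩ ⟨a, hSP memA⟩
  have e3 : (⟨a, hSP memA⟩ * ⟨b, hSP memB⟩ : P) = ⟨b, hSP memB⟩ * ⟨a, hSP memA⟩ :=
    Subtype.ext hab
  rw [e3, e2, hf₁b, hf₂a, hf₁a, hf₂b] at e1
  have e4 : (0 : ZMod 2) = 1 := by linear_combination e1
  exact absurd e4 (by decide)

end Pool.Agent.H5.Dem
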