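import Pool.Agent.H5.Dem.Stmts

/-!
# Project DEM, module EXT: extension of homomorphisms from closed subgroups
-/

set_option autoImplicit false

namespace Pool.Agent.H5.Dem

namespace ExtAux

variable {G : Type} [Group G] [TopologicalSpace G] [IsTopologicalGroup G]

/-- Extension of one homomorphism to `P ⊔ N`. -/
theorem ext_one (P N : Subgroup G) [N.Normal] (hN : IsOpen (N : Set G)) (f : H1 2 P)
    (hf : ∀ g : P, (g : G) ∈ N → f.1 g = 0) :
    ∃ F : H1 2 (P ⊔ N : Subgroup G), ∀ g : P, F.1 ⟨g, le_sup_left (b := N) g.2⟩ = f.1 g := by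
  classical
  have hex : ∀ v : (P ⊔ N : Subgroup G), ∃ p : P, (p : G)⁻¹ * (v : G) ∈ N := by
    intro v
    have hv : (v : G) ∈ ((P ⊔ N : Subgroup G) : Set G) := v.2
    rw [Subgroup.mul_normal] at hv
    obtain ⟨p, hp, n, hn, h⟩ := Set.mem_mul.1 hv
    refine ⟨⟨p, hp⟩, ?_⟩
    rw [← h]
    simpa using hn
  choose r hr using hex
  have hfmul := f.2.2
  have key : ∀ (v : (P ⊔ N : Subgroup G)) (p : P), (p : G)⁻¹ * (v : G) ∈ N →
      f.1 (r v) = f.1 p := by
    intro v p hp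
    have h1 : ((r v)⁻¹ * p : P).1 ∈ N := by
      have h2 := N.mul_mem (hr v) (N.inv_mem hp)
      have h3 : ((r v : P) : G)⁻¹ * (v : G) * ((p : G)⁻¹ * (v : G))⁻¹ =
          ((r v)⁻¹ * p : P).1 := by
        push_cast
        group
      rwa [h3] at h2
    have h4 := hf _ h1
    have h5 := hfmul (r v) ((r v)⁻¹ * p)
    rw [mul_inv_cancel_left, h4, add_zero] at h5
    exact h5.symm
  refine ⟨⟨fun v => f.1 (r v), ?_, ?_⟩, ?_⟩
  · rw [IsLocallyConstant.iff_exists_open]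
    intro v
    refine ⟨{w | ((v : G)⁻¹ * (w : G)) ∈ N}, ?_, ?_, ?_⟩
    · exact hN.preimage (by fun_prop)
    · simp
    · intro w hw
      refine key w (r v) ?_
      have := N.mul_mem (hr v) hw
      simpa [mul_assoc] using this
  · intro v w
    rw [← hfmul]
    refine key (v * w) (r v * r w) ?_
    have h1 : ((r w : P) : G)⁻¹ * (((r v : P) : G)⁻¹ * (v : G)) * (((r w : P) : G)⁻¹)⁻¹ ∈ N :=
      (inferInstance : N.Normal).conj_mem _ (hr v) _
    have h2 := N.mul_mem h1 (hr w)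
    have h3 : ((r w : P) : G)⁻¹ * (((r v : P) : G)⁻¹ * (v : G)) * (((r w : P) : G)⁻¹)⁻¹ *
        (((r w : P) : G)⁻¹ * (w : G)) = ((r v * r w : P) : G)⁻¹ * ((v * w : (P ⊔ N : Subgroup G)) : G) := by
      push_cast
      group
    rwa [h3] at h2
  · intro g
    exact key _ g (by simp)

end ExtAux

/-- Module EXT. -/
theorem ext : EXTStmt := by
  intro G _ _ hG P hP f₁ f₂
  have := hG.topGroup
  have := hG.compact
  have := hG.hausdorff
  have := hG.disconnected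
  have hS : IsOpen {g : P | f₁.1 g = 0 ∧ f₂.1 g = 0} :=
    (f₁.2.1.isOpen_fiber 0).inter (f₂.2.1.isOpen_fiber 0)
  obtain ⟨W, hW, hWS⟩ := isOpen_induced_iff.1 hS
  have h0 : ∀ f : H1 2 P, f.1 1 = 0 := by
    intro f
    have := f.2.2 1 1
    simpa using this
  have h1 : (1 : G) ∈ W := by
    have : (1 : P) ∈ ((↑) : P → G) ⁻¹' W := by
      rw [hWS]
      exact ⟨h0 _, h0 _⟩
    simpa using this
  obtain ⟨N, hNW⟩ := ProfiniteGrp.exist_openNormalSubgroup_sub_open_nhds_of_one hW h1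
  have hNo : IsOpen ((N.toSubgroup : Subgroup G) : Set G) := N.isOpen'
  have hker : ∀ g : P, (g : G) ∈ N.toSubgroup → f₁.1 g = 0 ∧ f₂.1 g = 0 := by
    intro g hg
    have h2 : g ∈ ((↑) : P → G) ⁻¹' W := hNW hg
    rw [hWS] at h2
    exact h2
  obtain ⟨F₁, hF₁⟩ := ExtAux.ext_one P N.toSubgroup hNo f₁ (fun g hg => (hker g hg).1)
  obtain ⟨F₂, hF₂⟩ := ExtAux.ext_one P N.toSubgroup hNo f₂ (fun g hg => (hker g hg).2)
  exact ⟨P ⊔ N.toSubgroup, le_sup_left, F₁, F₂, Subgroup.isOpen_mono le_sup_right hNo, hF₁, hF₂⟩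

end Pool.Agent.H5.Dem
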